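import Mathlib

/-!
# Every `ω + ω*` chain of Weihrauch degrees has an intermediate degree

Weihrauch reducibility for problems (partial multivalued functions) on Baire space.
-/

namespace Pool.Agent.Results.MP_2d238a_lc.OmegaChainIntermediate

open Nat.Partrec (Code)

/-! ## Definitions -/

/-- Baire space `ω^ω`. -/
abbrev Baire : Type := ℕ → ℕ

/-- The finite word `p 0, p 1, …, p (n-1)`: the prefix of `p` of length `n`. -/
def pre (p : Baire) (n : ℕ) : List ℕ := (List.range n).map p

/-- The standard pairing on Baire space: `⟨p, q⟩ (2n) = p n` and `⟨p, q⟩ (2n+1) = q n`. -/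
def pairing (p q : Baire) : Baire := fun i => if i % 2 = 0 then p (i / 2) else q (i / 2)

/-- A partial map `F` of Baire space into itself is *computable* if there is a computable function
`h` on finite words which is monotone for the prefix order and such that, for every `p` in the
domain of `F`, the words `h (p 0 … p (n-1))`, `n = 0, 1, 2, …`, are prefixes of `F p` whose
lengths are unbounded. -/
def ComputableMap (F : Baire →. Baire) : Prop :=
  ∃ h : List ℕ → List ℕ, Computable h ∧ (∀ σ τ : List ℕ, σ <+: τ → h σ <+: h τ) ∧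
    ∀ p q : Baire, q ∈ F p →
      (∀ n, ∃ m, h (pre p n) = pre q m) ∧ ∀ m, ∃ n, m ≤ (h (pre p n)).length

/-- A problem: a partial multivalued function `f` on Baire space, given by the set `f.sol p` of
solutions of `p`. -/
structure Problem where
  /-- the set of solutions of an instance -/
  sol : Baire → Set Baire

/-- The domain of a problem: the set of all `p` having a solution. -/
def Problem.dom (f : Problem) : Set Baire := {p | (f.sol p).Nonempty}

/-- Weihrauch reducibility `f ≤_W g`: there are computable partial maps `Φ`, `Ψ` such that for every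
`p ∈ dom f`, `Φ p` is defined and lies in `dom g`, and for every `q ∈ g (Φ p)`, `Ψ ⟨p, q⟩` is
defined and lies in `f p`. -/
def WeihrauchLE (f g : Problem) : Prop :=
  ∃ Φ Ψ : Baire →. Baire, ComputableMap Φ ∧ ComputableMap Ψ ∧
    ∀ p ∈ f.dom, ∃ p' ∈ Φ p, p' ∈ g.dom ∧
      ∀ q ∈ g.sol p', ∃ r ∈ Ψ (pairing p q), r ∈ f.sol p

/-! ## Words -/

@[simp] theorem length_pre (p : Baire) (n : ℕ) : (pre p n).length = n := by simp [pre]

theorem getElem?_pre (p : Baire) (n k : ℕ) : (pre p n)[k]? = if k < n then some (p k) else none := by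
  unfold pre
  split_ifs with h
  · simp [h]
  · simp only [List.getElem?_map, Option.map_eq_none_iff, List.getElem?_eq_none_iff,
      List.length_range]
    omega

theorem getD_pre (p : Baire) (n k d : ℕ) (h : k < n) : (pre p n).getD k d = p k := by
  rw [List.getD_eq_getElem?_getD, getElem?_pre, if_pos h]; rfl

theorem range_map_prefix {f g : ℕ → ℕ} {m n : ℕ} (hmn : m ≤ n) (hfg : ∀ k < m, f k = g k) :
    (List.range m).map f <+: (List.range n).map g := by
  have h1 : (List.range m).map f = (List.range m).map g := by
    apply List.map_congr_left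
    intro k hk
    exact hfg k (List.mem_range.1 hk)
  rw [h1]
  obtain ⟨t, rfl⟩ := Nat.exists_eq_add_of_le hmn
  rw [List.range_add, List.map_append]
  exact List.prefix_append _ _

theorem pre_prefix (p : Baire) {m n : ℕ} (h : m ≤ n) : pre p m <+: pre p n :=
  range_map_prefix h fun _ _ => rfl

theorem take_pre (p : Baire) {m n : ℕ} (h : m ≤ n) : (pre p n).take m = pre p m := by
  have := (pre_prefix p h)
  rw [List.prefix_iff_eq_take] at this
  rw [length_pre] at this
  exact this.symm

/-- A word all of whose entries agree with `q` is a prefix of `q`. -/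
theorem eq_pre_of_getElem? {l : List ℕ} {q : Baire} (h : ∀ k v, l[k]? = some v → v = q k) :
    l = pre q l.length := by
  apply List.ext_getElem?
  intro k
  rw [getElem?_pre]
  split_ifs with hk
  · rw [List.getElem?_eq_getElem hk]
    rw [h k _ (List.getElem?_eq_getElem hk)]
  · rw [List.getElem?_eq_none_iff]; omega

/-! ## Computable maps: closure properties -/

theorem computableMap_comp {F G : Baire →. Baire} (hF : ComputableMap F) (hG : ComputableMap G) :
    ComputableMap (F.comp G) := by
  obtain ⟨f, hf, fm, hf'⟩ := hF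
  obtain ⟨g, hg, gm, hg'⟩ := hG
  refine ⟨fun σ => f (g σ), hf.comp hg, fun σ τ h => fm _ _ (gm _ _ h), ?_⟩
  intro p r hr
  rw [PFun.comp_apply] at hr
  obtain ⟨q, hq, hr⟩ := Part.mem_bind_iff.1 hr
  obtain ⟨h1, h2⟩ := hg' p q hq
  obtain ⟨h3, h4⟩ := hf' q r hr
  constructor
  · intro n
    obtain ⟨m, hm⟩ := h1 n
    beta_reduce
    rw [hm]
    exact h3 m
  · intro m
    obtain ⟨m1, hm1⟩ := h4 m
    obtain ⟨n, hn⟩ := h2 m1
    refine ⟨n, hm1.trans ?_⟩
    obtain ⟨m2, hm2⟩ := h1 n
    beta_reduce
    rw [hm2] at hn ⊢
    rw [length_pre] at hn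
    exact (fm _ _ (pre_prefix q hn)).length_le

/-- The word version of pairing. -/
def inter (a b : List ℕ) : List ℕ :=
  (List.range (2 * min a.length b.length)).map
    fun i => if i % 2 = 0 then a.getD (i / 2) 0 else b.getD (i / 2) 0

theorem getD_prefix {a b : List ℕ} (h : a <+: b) {k : ℕ} (hk : k < a.length) (d : ℕ) :
    a.getD k d = b.getD k d := by
  obtain ⟨t, rfl⟩ := h
  rw [List.getD_append _ _ _ _ hk]

theorem inter_mono {a b c d : List ℕ} (h1 : a <+: c) (h2 : b <+: d) : inter a b <+: inter c d := by
  have l1 := h1.length_le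
  have l2 := h2.length_le
  apply range_map_prefix
  · omega
  · intro k hk
    have k1 : k / 2 < a.length := by omega
    have k2 : k / 2 < b.length := by omega
    rw [getD_prefix h1 k1, getD_prefix h2 k2]

theorem inter_pre (p q : Baire) (m n : ℕ) :
    inter (pre p m) (pre q n) = pre (pairing p q) (2 * min m n) := by
  unfold inter
  rw [length_pre, length_pre]
  unfold pre pairing
  apply List.map_congr_left
  intro k hk
  rw [List.mem_range] at hk
  have k1 : k / 2 < m := by omega
  have k2 : k / 2 < n := by omega
  have := getD_pre p m (k/2) 0 k1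
  have := getD_pre q n (k/2) 0 k2
  unfold pre at *
  simp only [*]

theorem primrec_inter : Primrec₂ inter := by
  unfold inter
  refine Primrec.list_map (Primrec.list_range.comp ?_) ?_
  · refine Primrec.nat_mul.comp (Primrec.const 2) (Primrec.nat_min.comp ?_ ?_)
    · exact Primrec.list_length.comp Primrec.fst
    · exact Primrec.list_length.comp Primrec.snd
  · refine Primrec.ite ?_ ?_ ?_
    · refine Primrec.eq.comp ?_ (Primrec.const 0)
      exact Primrec.nat_mod.comp Primrec.snd (Primrec.const 2)
    · refine (Primrec.list_getD 0).comp (Primrec.fst.comp Primrec.fst) ?_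
      exact Primrec.nat_div.comp Primrec.snd (Primrec.const 2)
    · refine (Primrec.list_getD 0).comp (Primrec.snd.comp Primrec.fst) ?_
      exact Primrec.nat_div.comp Primrec.snd (Primrec.const 2)

/-- The pairing of two partial maps. -/
def pairMap (F G : Baire →. Baire) : Baire →. Baire :=
  fun p => (F p).bind fun a => (G p).map fun b => pairing a b

theorem mem_pairMap {F G : Baire →. Baire} {p a b : Baire} (ha : a ∈ F p) (hb : b ∈ G p) :
    pairing a b ∈ pairMap F G p := by
  unfold pairMap
  rw [Part.mem_bind_iff]
  exact ⟨a, ha, (Part.mem_map_iff _).2 ⟨b, hb, rfl⟩⟩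

theorem computableMap_pair {F G : Baire →. Baire} (hF : ComputableMap F) (hG : ComputableMap G) :
    ComputableMap (pairMap F G) := by
  obtain ⟨f, hf, fm, hf'⟩ := hF
  obtain ⟨g, hg, gm, hg'⟩ := hG
  refine ⟨fun σ => inter (f σ) (g σ), primrec_inter.to_comp.comp hf hg,
    fun σ τ h => inter_mono (fm _ _ h) (gm _ _ h), ?_⟩
  intro p r hr
  unfold pairMap at hr
  rw [Part.mem_bind_iff] at hr
  obtain ⟨a, ha, hr⟩ := hr
  rw [Part.mem_map_iff] at hr
  obtain ⟨b, hb, rfl⟩ := hr
  obtain ⟨h1, h2⟩ := hf' p a ha
  obtain ⟨h3, h4⟩ := hg' p b hb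
  constructor
  · intro n
    obtain ⟨m, hm⟩ := h1 n
    obtain ⟨m', hm'⟩ := h3 n
    exact ⟨2 * min m m', by beta_reduce; rw [hm, hm', inter_pre]⟩
  · intro m
    obtain ⟨n1, hn1⟩ := h2 m
    obtain ⟨n2, hn2⟩ := h4 m
    refine ⟨max n1 n2, ?_⟩
    have e1 := (fm _ _ (pre_prefix p (le_max_left n1 n2))).length_le
    have e2 := (gm _ _ (pre_prefix p (le_max_right n1 n2))).length_le
    simp only [inter, List.length_map, List.length_range]
    omega

theorem computableMap_id : ComputableMap (PFun.id Baire) := by
  refine ⟨fun σ => σ, Computable.id, fun σ τ h => h, ?_⟩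
  intro p q hq
  have hq' : q = p := by simpa [PFun.id] using hq
  subst hq'
  exact ⟨fun n => ⟨n, rfl⟩, fun m => ⟨m, by simp⟩⟩

/-- First projection. -/
def proj1 : Baire →. Baire := fun p => Part.some fun i => p (2 * i)

/-- Second projection. -/
def proj2 : Baire →. Baire := fun p => Part.some fun i => p (2 * i + 1)

theorem proj1_pairing (p q : Baire) : p ∈ proj1 (pairing p q) := by
  unfold proj1 pairing
  rw [Part.mem_some_iff]
  funext i
  simp

theorem proj2_pairing (p q : Baire) : q ∈ proj2 (pairing p q) := by
  unfold proj2 pairing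
  rw [Part.mem_some_iff]
  funext i
  have h1 : (2 * i + 1) % 2 = 1 := by omega
  have h2 : (2 * i + 1) / 2 = i := by omega
  simp [h1, h2]

theorem computableMap_proj1 : ComputableMap proj1 := by
  refine ⟨fun σ => (List.range ((σ.length + 1) / 2)).map fun i => σ.getD (2 * i) 0, ?_, ?_, ?_⟩
  · apply Primrec.to_comp
    refine Primrec.list_map (Primrec.list_range.comp ?_) ?_
    · exact Primrec.nat_div.comp (Primrec.succ.comp Primrec.list_length) (Primrec.const 2)
    · exact (Primrec.list_getD 0).comp Primrec.fst
        (Primrec.nat_mul.comp (Primrec.const 2) Primrec.snd)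
  · intro σ τ h
    have := h.length_le
    apply range_map_prefix
    · omega
    · intro k hk
      exact getD_prefix h (by omega) 0
  · intro p q hq
    unfold proj1 at hq
    rw [Part.mem_some_iff] at hq
    subst hq
    constructor
    · intro n
      refine ⟨(n + 1) / 2, ?_⟩
      beta_reduce
      rw [length_pre]
      unfold pre
      apply List.map_congr_left
      intro k hk
      rw [List.mem_range] at hk
      exact getD_pre p n (2 * k) 0 (by omega)
    · intro m
      exact ⟨2 * m, by simp; omega⟩

theorem computableMap_proj2 : ComputableMap proj2 := by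
  refine ⟨fun σ => (List.range (σ.length / 2)).map fun i => σ.getD (2 * i + 1) 0, ?_, ?_, ?_⟩
  · apply Primrec.to_comp
    refine Primrec.list_map (Primrec.list_range.comp ?_) ?_
    · exact Primrec.nat_div.comp Primrec.list_length (Primrec.const 2)
    · exact (Primrec.list_getD 0).comp Primrec.fst
        (Primrec.succ.comp (Primrec.nat_mul.comp (Primrec.const 2) Primrec.snd))
  · intro σ τ h
    have := h.length_le
    apply range_map_prefix
    · omega
    · intro k hk
      exact getD_prefix h (by omega) 0
  · intro p q hq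
    unfold proj2 at hq
    rw [Part.mem_some_iff] at hq
    subst hq
    constructor
    · intro n
      refine ⟨n / 2, ?_⟩
      beta_reduce
      rw [length_pre]
      unfold pre
      apply List.map_congr_left
      intro k hk
      rw [List.mem_range] at hk
      exact getD_pre p n (2 * k + 1) 0 (by omega)
    · intro m
      exact ⟨2 * m, by simp⟩

/-! ## Weihrauch reducibility is a preorder -/

theorem weihrauchLE_refl (f : Problem) : WeihrauchLE f f := by
  refine ⟨PFun.id Baire, proj2, computableMap_id, computableMap_proj2, ?_⟩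
  intro p hp
  refine ⟨p, by simp [PFun.id], hp, ?_⟩
  intro q hq
  exact ⟨q, proj2_pairing p q, hq⟩

theorem weihrauchLE_trans {f g h : Problem} (hfg : WeihrauchLE f g) (hgh : WeihrauchLE g h) :
    WeihrauchLE f h := by
  obtain ⟨Φ₁, Ψ₁, cΦ₁, cΨ₁, h₁⟩ := hfg
  obtain ⟨Φ₂, Ψ₂, cΦ₂, cΨ₂, h₂⟩ := hgh
  refine ⟨Φ₂.comp Φ₁, Ψ₁.comp (pairMap proj1 (Ψ₂.comp (pairMap (Φ₁.comp proj1) proj2))),
    computableMap_comp cΦ₂ cΦ₁,
    computableMap_comp cΨ₁ (computableMap_pair computableMap_proj1
      (computableMap_comp cΨ₂ (computableMap_pair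
        (computableMap_comp cΦ₁ computableMap_proj1) computableMap_proj2))), ?_⟩
  intro p hp
  obtain ⟨p', hp', hp'd, hsol⟩ := h₁ p hp
  obtain ⟨p'', hp'', hp''d, hsol'⟩ := h₂ p' hp'd
  refine ⟨p'', ?_, hp''d, ?_⟩
  · rw [PFun.comp_apply]
    exact Part.mem_bind_iff.2 ⟨p', hp', hp''⟩
  · intro q hq
    obtain ⟨r, hr, hrg⟩ := hsol' q hq
    obtain ⟨s, hs, hsf⟩ := hsol r hrg
    refine ⟨s, ?_, hsf⟩
    rw [PFun.comp_apply]
    refine Part.mem_bind_iff.2 ⟨pairing p r, ?_, hs⟩
    apply mem_pairMap (proj1_pairing p q)
    rw [PFun.comp_apply]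
    refine Part.mem_bind_iff.2 ⟨pairing p' q, ?_, hr⟩
    refine mem_pairMap ?_ (proj2_pairing p q)
    rw [PFun.comp_apply]
    exact Part.mem_bind_iff.2 ⟨p, proj1_pairing p q, hp'⟩

/-- The preorder of problems under Weihrauch reducibility. -/
instance : Preorder Problem where
  le := WeihrauchLE
  le_refl := weihrauchLE_refl
  le_trans _ _ _ := weihrauchLE_trans

/-- The partial order `𝒲` of Weihrauch degrees: the quotient of the preorder `≤_W` on problems by
the equivalence `f ≤_W g ≤_W f`, ordered by `≤_W`. -/
abbrev WeihrauchDegree : Type := Antisymmetrization Problem (· ≤ ·)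

/-! ## Functionals given by partial recursive functions on words -/

/-- `q` is computed from `p` by the partial recursive function `φ` of (word, index). -/
def CRel (φ : List ℕ × ℕ →. ℕ) (p q : Baire) : Prop := ∀ k v, q k = v ↔ ∃ n, v ∈ φ (pre p n, k)

theorem CRel.unique {φ : List ℕ × ℕ →. ℕ} {p q q' : Baire} (h : CRel φ p q) (h' : CRel φ p q') :
    q = q' := by
  funext k
  exact ((h k (q' k)).2 ((h' k (q' k)).1 rfl))

/-- The approximation to the value at `k` computed from the word `σ`. -/
def approx (c : Code) (σ : List ℕ) (k : ℕ) : Option ℕ :=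
  ((List.range (σ.length + 1)).flatMap fun t =>
    (List.range (t + 1)).filterMap fun j =>
      Code.evaln t c (Encodable.encode (σ.take j, k))).head?

theorem head?_eq_of_prefix {l l' : List ℕ} (h : l <+: l') {v : ℕ} (hv : l.head? = some v) :
    l'.head? = some v := by
  obtain ⟨t, rfl⟩ := h
  cases l with
  | nil => simp at hv
  | cons a l => simpa using hv

theorem approx_mono {c : Code} {σ τ : List ℕ} (h : σ <+: τ) {k v : ℕ}
    (hv : approx c σ k = some v) : approx c τ k = some v := by
  refine head?_eq_of_prefix ?_ hv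
  have hl := h.length_le
  obtain ⟨s, hs⟩ := Nat.exists_eq_add_of_le hl
  have e1 : τ.length + 1 = (σ.length + 1) + s := by omega
  have e0 : List.range (τ.length + 1) =
      List.range (σ.length + 1) ++ (List.range s).map (σ.length + 1 + ·) := by
    rw [e1, List.range_add]
  rw [e0, List.flatMap_append]
  have e2 : ((List.range (σ.length + 1)).flatMap fun t =>
      (List.range (t + 1)).filterMap fun j =>
        Code.evaln t c (Encodable.encode (σ.take j, k))) =
      ((List.range (σ.length + 1)).flatMap fun t =>
      (List.range (t + 1)).filterMap fun j =>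
        Code.evaln t c (Encodable.encode (τ.take j, k))) := by
    apply List.flatMap_congr
    intro t ht
    rw [List.mem_range] at ht
    apply List.filterMap_congr
    intro j hj
    rw [List.mem_range] at hj
    have : σ.take j = τ.take j := by
      obtain ⟨r, rfl⟩ := h
      rw [List.take_append_of_le_length (by omega)]
    rw [this]
  rw [e2]
  exact List.prefix_append _ _

theorem mem_of_approx {c : Code} {σ : List ℕ} {k v : ℕ} (hv : approx c σ k = some v) :
    ∃ t j, j ≤ t ∧ t ≤ σ.length ∧ v ∈ Code.evaln t c (Encodable.encode (σ.take j, k)) := by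
  have := List.mem_of_head? hv
  rw [List.mem_flatMap] at this
  obtain ⟨t, ht, h⟩ := this
  rw [List.mem_filterMap] at h
  obtain ⟨j, hj, h⟩ := h
  rw [List.mem_range] at ht hj
  exact ⟨t, j, by omega, by omega, h⟩

theorem approx_isSome {c : Code} {σ : List ℕ} {k v t j : ℕ} (hj : j ≤ t) (ht : t ≤ σ.length)
    (h : v ∈ Code.evaln t c (Encodable.encode (σ.take j, k))) : ∃ w, approx c σ k = some w := by
  unfold approx
  cases hl : ((List.range (σ.length + 1)).flatMap fun t =>
    (List.range (t + 1)).filterMap fun j =>
      Code.evaln t c (Encodable.encode (σ.take j, k))) with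
  | nil =>
    exfalso
    have : v ∈ ((List.range (σ.length + 1)).flatMap fun t =>
      (List.range (t + 1)).filterMap fun j =>
      Code.evaln t c (Encodable.encode (σ.take j, k))) := by
      rw [List.mem_flatMap]
      refine ⟨t, List.mem_range.2 (by omega), ?_⟩
      rw [List.mem_filterMap]
      exact ⟨j, List.mem_range.2 (by omega), h⟩
    rw [hl] at this
    simp at this
  | cons a l => exact ⟨a, rfl⟩

theorem primrec_approx (c : Code) : Primrec₂ (approx c) := by
  unfold approx
  refine Primrec.list_head?.comp ?_
  refine Primrec.list_flatMap ?_ ?_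
  · exact Primrec.list_range.comp (Primrec.succ.comp (Primrec.list_length.comp Primrec.fst))
  · refine Primrec.listFilterMap ?_ ?_
    · exact Primrec.list_range.comp (Primrec.succ.comp Primrec.snd)
    · have := Nat.Partrec.Code.primrec_evaln
      refine this.comp (Primrec.pair (Primrec.pair (Primrec.snd.comp Primrec.fst)
        (Primrec.const c)) ?_)
      refine Primrec.encode.comp (Primrec.pair ?_ ?_)
      · exact Primrec.list_take.comp Primrec.snd (Primrec.fst.comp (Primrec.fst.comp Primrec.fst))
      · exact Primrec.snd.comp (Primrec.fst.comp Primrec.fst)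

/-- The number of outputs produced from the word `σ`. -/
def outLen (c : Code) (σ : List ℕ) : ℕ :=
  (List.range σ.length).findIdx fun k => (approx c σ k).isNone

/-- The output word produced from the word `σ`. -/
def out (c : Code) (σ : List ℕ) : List ℕ :=
  (List.range (outLen c σ)).map fun k => (approx c σ k).getD 0

theorem outLen_le (c : Code) (σ : List ℕ) : outLen c σ ≤ σ.length := by
  have := List.findIdx_le_length (xs := List.range σ.length)
    (p := fun k => (approx c σ k).isNone)
  rw [List.length_range] at this
  exact this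

theorem approx_of_lt_outLen {c : Code} {σ : List ℕ} {k : ℕ} (hk : k < outLen c σ) :
    ∃ v, approx c σ k = some v := by
  have := List.not_of_lt_findIdx hk
  simp only [List.getElem_range] at this
  cases h : approx c σ k with
  | none => simp [h] at this
  | some v => exact ⟨v, rfl⟩

theorem le_outLen {c : Code} {σ : List ℕ} {m : ℕ} (hm : m ≤ σ.length)
    (h : ∀ k < m, ∃ v, approx c σ k = some v) : m ≤ outLen c σ := by
  unfold outLen
  by_contra hcon
  rw [not_le] at hcon
  have hlt : List.findIdx (fun k => (approx c σ k).isNone) (List.range σ.length) <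
      (List.range σ.length).length := by
    rw [List.length_range]; omega
  have := List.findIdx_getElem (w := hlt)
  simp only [List.getElem_range] at this
  obtain ⟨v, hv⟩ := h _ hcon
  rw [hv] at this
  simp at this

theorem out_mono {c : Code} {σ τ : List ℕ} (h : σ <+: τ) : out c σ <+: out c τ := by
  apply range_map_prefix
  · apply le_outLen ((outLen_le c σ).trans h.length_le)
    intro k hk
    obtain ⟨v, hv⟩ := approx_of_lt_outLen hk
    exact ⟨v, approx_mono h hv⟩
  · intro k hk
    obtain ⟨v, hv⟩ := approx_of_lt_outLen hk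
    rw [hv, approx_mono h hv]

theorem primrec_out (c : Code) : Primrec (out c) := by
  have h1 : Primrec (outLen c) := by
    unfold outLen
    refine Primrec.list_findIdx (Primrec.list_range.comp Primrec.list_length) ?_
    have : Primrec fun a : List ℕ × ℕ => !(approx c a.1 a.2).isSome :=
      Primrec.not.comp (Primrec.option_isSome.comp (primrec_approx c))
    refine this.of_eq ?_
    rintro ⟨σ, k⟩
    cases h : approx c σ k <;> simp [h]
  unfold out
  refine Primrec.list_map (Primrec.list_range.comp h1) ?_
  exact Primrec.option_getD.comp (primrec_approx c) (Primrec.const 0)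

/-- Every partial recursive function on words defines a computable partial map of Baire space. -/
theorem exists_computableMap {φ : List ℕ × ℕ →. ℕ} (hφ : Partrec φ) :
    ∃ F : Baire →. Baire, ComputableMap F ∧ ∀ p q, CRel φ p q → q ∈ F p := by
  classical
  obtain ⟨c, hc⟩ := Nat.Partrec.Code.exists_code.1 hφ
  have hmem : ∀ (σ : List ℕ) (k v : ℕ), v ∈ c.eval (Encodable.encode (σ, k)) ↔ v ∈ φ (σ, k) := by
    intro σ k v
    rw [hc]
    simp
  refine ⟨fun p => ⟨∃ q, CRel φ p q, fun h => h.choose⟩, ?_, ?_⟩
  swap
  · intro p q h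
    have h' : ∃ q, CRel φ p q := ⟨q, h⟩
    exact ⟨h', CRel.unique h'.choose_spec h⟩
  · refine ⟨out c, (primrec_out c).to_comp, fun σ τ h => out_mono h, ?_⟩
    intro p q hq
    have hpq : CRel φ p q := by
      obtain ⟨h, rfl⟩ := hq
      exact h.choose_spec
    have key : ∀ n k v, approx c (pre p n) k = some v → v = q k := by
      intro n k v hv
      obtain ⟨t, j, hjt, ht, hv⟩ := mem_of_approx hv
      rw [length_pre] at ht
      rw [take_pre p (hjt.trans ht)] at hv
      have := Nat.Partrec.Code.evaln_sound hv
      rw [hmem] at this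
      exact ((hpq k v).2 ⟨j, this⟩).symm
    constructor
    · intro n
      refine ⟨outLen c (pre p n), ?_⟩
      unfold out
      conv_rhs => unfold pre
      apply List.map_congr_left
      intro k hk
      rw [List.mem_range] at hk
      obtain ⟨v, hv⟩ := approx_of_lt_outLen hk
      have := key n k v hv
      rw [hv, ← this]
      rfl
    · intro m
      -- for each `k` a bound from which on the value at `k` is found
      have hb : ∀ k, ∃ N, ∀ n, N ≤ n → ∃ v, approx c (pre p n) k = some v := by
        intro k
        obtain ⟨j, hj⟩ := (hpq k (q k)).1 rfl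
        rw [← hmem] at hj
        obtain ⟨s, hs⟩ := Nat.Partrec.Code.evaln_complete.1 hj
        refine ⟨max j s, ?_⟩
        intro n hn
        have hs' := Nat.Partrec.Code.evaln_mono (le_max_right j s) hs
        rw [← take_pre p ((le_max_left j s).trans hn)] at hs'
        exact approx_isSome (le_max_left j s) (by rw [length_pre]; exact hn) hs'
      choose N hN using hb
      let B := (Finset.range m).sup N
      refine ⟨max m B, ?_⟩
      unfold out
      rw [List.length_map, List.length_range]
      apply le_outLen
      · rw [length_pre]; exact le_max_left _ _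
      · intro k hk
        apply hN k
        exact le_trans (Finset.le_sup (f := N) (Finset.mem_range.2 hk)) (le_max_right _ _)

/-- Every computable partial map is given by a code acting on words. -/
theorem exists_code_of_computableMap {F : Baire →. Baire} (hF : ComputableMap F) :
    ∃ c : Code, ∀ p q, q ∈ F p → CRel (fun x => c.eval (Encodable.encode x)) p q := by
  obtain ⟨h, hc, hm, hF⟩ := hF
  have h1 : Computable fun x : List ℕ × ℕ => (h x.1)[x.2]? :=
    Computable.list_getElem?.comp (hc.comp Computable.fst) Computable.snd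
  have h2 : Partrec fun x : List ℕ × ℕ => (((h x.1)[x.2]? : Option ℕ) : Part ℕ) :=
    Computable.ofOption h1
  obtain ⟨c, hc'⟩ := Nat.Partrec.Code.exists_code.1 h2
  refine ⟨c, ?_⟩
  intro p q hq k v
  obtain ⟨e1, e2⟩ := hF p q hq
  have hmem : ∀ (σ : List ℕ) (k v : ℕ), v ∈ c.eval (Encodable.encode (σ, k)) ↔
      (h σ)[k]? = some v := by
    intro σ k v
    rw [hc']
    simp
  constructor
  · rintro rfl
    obtain ⟨n, hn⟩ := e2 (k + 1)
    refine ⟨n, ?_⟩
    rw [hmem]
    obtain ⟨m, hm⟩ := e1 n
    rw [hm] at hn ⊢
    rw [length_pre] at hn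
    rw [getElem?_pre, if_pos (by omega)]
  · rintro ⟨n, hn⟩
    rw [hmem] at hn
    obtain ⟨m, hm⟩ := e1 n
    rw [hm, getElem?_pre] at hn
    split_ifs at hn
    simpa using hn

/-- A reduction given by a pair of codes. -/
def Red (ab : Code × Code) (f g : Problem) : Prop :=
  ∀ p ∈ f.dom, ∃ p', CRel (fun x => ab.1.eval (Encodable.encode x)) p p' ∧ p' ∈ g.dom ∧
    ∀ q ∈ g.sol p', ∃ r, CRel (fun x => ab.2.eval (Encodable.encode x)) (pairing p q) r ∧
      r ∈ f.sol p

theorem exists_red {f g : Problem} (h : WeihrauchLE f g) : ∃ ab : Code × Code, Red ab f g := by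
  obtain ⟨Φ, Ψ, hΦ, hΨ, h⟩ := h
  obtain ⟨a, ha⟩ := exists_code_of_computableMap hΦ
  obtain ⟨b, hb⟩ := exists_code_of_computableMap hΨ
  refine ⟨(a, b), ?_⟩
  intro p hp
  obtain ⟨p', hp', hd, hs⟩ := h p hp
  refine ⟨p', ha _ _ hp', hd, ?_⟩
  intro q hq
  obtain ⟨r, hr, hr'⟩ := hs q hq
  exact ⟨r, hb _ _ hr, hr'⟩

theorem weihrauchLE_of_crel {f g : Problem} {φ ψ : List ℕ × ℕ →. ℕ} (hφ : Partrec φ)
    (hψ : Partrec ψ)
    (h : ∀ p ∈ f.dom, ∃ p', CRel φ p p' ∧ p' ∈ g.dom ∧
      ∀ q ∈ g.sol p', ∃ r, CRel ψ (pairing p q) r ∧ r ∈ f.sol p) : WeihrauchLE f g := by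
  obtain ⟨Φ, hΦ, hΦ'⟩ := exists_computableMap hφ
  obtain ⟨Ψ, hΨ, hΨ'⟩ := exists_computableMap hψ
  refine ⟨Φ, Ψ, hΦ, hΨ, ?_⟩
  intro p hp
  obtain ⟨p', hp', hd, hs⟩ := h p hp
  refine ⟨p', hΦ' _ _ hp', hd, ?_⟩
  intro q hq
  obtain ⟨r, hr, hr'⟩ := hs q hq
  exact ⟨r, hΨ' _ _ hr, hr'⟩

/-! ## The intermediate degree -/

/-- Prefixing a number to a point of Baire space. -/
def cons (t : ℕ) (p : Baire) : Baire := fun i => if i = 0 then t else p (i - 1)

/-- Removing the first entry. -/
def tail (p : Baire) : Baire := fun i => p (i + 1)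

@[simp] theorem tail_cons (t : ℕ) (p : Baire) : tail (cons t p) = p := by
  funext i; simp [tail, cons]

@[simp] theorem cons_zero (t : ℕ) (p : Baire) : cons t p 0 = t := by simp [cons]

theorem pre_succ (p : Baire) (n : ℕ) : pre p (n + 1) = p 0 :: pre (tail p) n := by
  unfold pre tail
  rw [List.range_succ_eq_map, List.map_cons, List.map_map]
  rfl

/-- The disjoint union of the `f n`, the `n`-th one being tagged by `tag n`. -/
def tagged (tag : ℕ → ℕ) (f : ℕ → Problem) : Problem where
  sol p := {q | ∃ n, p 0 = tag n ∧ q ∈ (f n).sol (tail p)}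

theorem le_tagged (tag : ℕ → ℕ) (htag : Function.Injective tag) (f : ℕ → Problem) (n : ℕ) :
    WeihrauchLE (f n) (tagged tag f) := by
  have hcons : ComputableMap (fun p => Part.some (cons (tag n) p)) := by
    refine ⟨fun σ => tag n :: σ, (Primrec.list_cons.comp (Primrec.const _) Primrec.id).to_comp,
      ?_, ?_⟩
    · rintro σ τ ⟨t, rfl⟩
      exact ⟨t, rfl⟩
    · intro p q hq
      rw [Part.mem_some_iff] at hq
      subst hq
      constructor
      · intro m
        refine ⟨m + 1, ?_⟩
        rw [pre_succ, tail_cons, cons_zero]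
      · intro m
        exact ⟨m, by simp⟩
  refine ⟨_, proj2, hcons, computableMap_proj2, ?_⟩
  intro p hp
  refine ⟨cons (tag n) p, Part.mem_some _, ?_, ?_⟩
  · obtain ⟨q, hq⟩ := hp
    exact ⟨q, n, by simp, by simpa using hq⟩
  · rintro q ⟨n', hn', hq⟩
    rw [cons_zero] at hn'
    have := htag hn'
    subst this
    rw [tail_cons] at hq
    exact ⟨q, proj2_pairing p q, hq⟩

/-- The pair of codes to be used for the tag `t`: the `m`-th entry of the list coded by `t` if
there is one, and otherwise the entry number `length - 1` of the fixed finite table. -/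
def pick (m : ℕ) (table : List (Code × Code)) (t : ℕ) : Option (Code × Code) :=
  (Encodable.decode t : Option (List (Code × Code))).bind fun l =>
    (l[m]?).orElse fun _ => table[l.length - 1]?

theorem primrec_pick (m : ℕ) (table : List (Code × Code)) : Primrec (pick m table) := by
  unfold pick
  refine Primrec.option_bind Primrec.decode ?_
  have h1 : Primrec₂ fun (_ : ℕ) (l : List (Code × Code)) => l[m]? :=
    Primrec.list_getElem?.comp Primrec.snd (Primrec.const m)
  have h2 : Primrec₂ fun (_ : ℕ) (l : List (Code × Code)) => table[l.length - 1]? :=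
    Primrec.list_getElem?.comp (Primrec.const table)
      (Primrec.nat_sub.comp (Primrec.list_length.comp Primrec.snd) (Primrec.const 1))
  refine (Primrec.option_orElse.comp₂ h1 h2).of_eq ?_
  intro t l
  rfl

/-- The word `σ` is a prefix of `⟨t ⌢ x, q⟩`; the result is the corresponding prefix of
`⟨x, q⟩`. -/
def shift (σ : List ℕ) : List ℕ :=
  (List.range (σ.length - 2)).map fun i => if i % 2 = 0 then σ.getD (i + 2) 0 else σ.getD i 0

theorem primrec_shift : Primrec shift := by
  unfold shift
  refine Primrec.list_map (Primrec.list_range.comp ?_) ?_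
  · exact Primrec.nat_sub.comp Primrec.list_length (Primrec.const 2)
  · refine Primrec.ite ?_ ?_ ?_
    · exact Primrec.eq.comp (Primrec.nat_mod.comp Primrec.snd (Primrec.const 2)) (Primrec.const 0)
    · exact (Primrec.list_getD 0).comp Primrec.fst
        (Primrec.nat_add.comp Primrec.snd (Primrec.const 2))
    · exact (Primrec.list_getD 0).comp Primrec.fst Primrec.snd

theorem shift_pre (p q : Baire) (n : ℕ) :
    shift (pre (pairing p q) n) = pre (pairing (tail p) q) (n - 2) := by
  unfold shift
  rw [length_pre]
  conv_rhs => unfold pre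
  apply List.map_congr_left
  intro k hk
  rw [List.mem_range] at hk
  rw [getD_pre _ _ _ _ (by omega), getD_pre _ _ _ _ (by omega)]
  unfold pairing tail
  by_cases h1 : k % 2 = 0
  · have h2 : (k + 2) % 2 = 0 := by omega
    have h3 : (k + 2) / 2 = k / 2 + 1 := by omega
    simp only [h1, h2, h3, if_true]
  · simp only [h1, if_false]

/-- Apply the first code of the pair picked by the first entry of the word to the rest. -/
def phi (m : ℕ) (table : List (Code × Code)) (x : List ℕ × ℕ) : Part ℕ :=
  ((x.1.head?.bind (pick m table) : Option (Code × Code)) : Part (Code × Code)).bind fun ab =>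
    ab.1.eval (Encodable.encode (x.1.tail, x.2))

/-- Apply the second code of the pair picked by the first entry of the word. -/
def psi (m : ℕ) (table : List (Code × Code)) (x : List ℕ × ℕ) : Part ℕ :=
  ((x.1.head?.bind (pick m table) : Option (Code × Code)) : Part (Code × Code)).bind fun ab =>
    ab.2.eval (Encodable.encode (shift x.1, x.2))

theorem partrec_phi (m : ℕ) (table : List (Code × Code)) : Partrec (phi m table) := by
  unfold phi
  have h1 : Primrec fun x : List ℕ × ℕ => x.1.head?.bind (pick m table) :=
    Primrec.option_bind (Primrec.list_head?.comp Primrec.fst)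
      ((primrec_pick m table).comp Primrec.snd)
  refine Partrec.bind (Computable.ofOption h1.to_comp) ?_
  refine Nat.Partrec.Code.eval_part.comp ?_ ?_
  · exact (Primrec.fst.comp Primrec.snd).to_comp
  · apply Primrec.to_comp
    refine Primrec.encode.comp (Primrec.pair ?_ ?_)
    · exact Primrec.list_tail.comp (Primrec.fst.comp Primrec.fst)
    · exact Primrec.snd.comp Primrec.fst

theorem partrec_psi (m : ℕ) (table : List (Code × Code)) : Partrec (psi m table) := by
  unfold psi
  have h1 : Primrec fun x : List ℕ × ℕ => x.1.head?.bind (pick m table) :=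
    Primrec.option_bind (Primrec.list_head?.comp Primrec.fst)
      ((primrec_pick m table).comp Primrec.snd)
  refine Partrec.bind (Computable.ofOption h1.to_comp) ?_
  refine Nat.Partrec.Code.eval_part.comp ?_ ?_
  · exact (Primrec.snd.comp Primrec.snd).to_comp
  · apply Primrec.to_comp
    refine Primrec.encode.comp (Primrec.pair ?_ ?_)
    · exact primrec_shift.comp (Primrec.fst.comp Primrec.fst)
    · exact Primrec.snd.comp Primrec.fst

theorem tagged_le (m : ℕ) (tag : ℕ → ℕ) (f : ℕ → Problem) (g : Problem)
    (table : List (Code × Code))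
    (h : ∀ n, ∃ ab, pick m table (tag n) = some ab ∧ Red ab (f n) g) :
    WeihrauchLE (tagged tag f) g := by
  refine weihrauchLE_of_crel (partrec_phi m table) (partrec_psi m table) ?_
  rintro p ⟨q0, n, hn, hq0⟩
  obtain ⟨ab, hab, hred⟩ := h n
  obtain ⟨p', hp', hd, hs⟩ := hred (tail p) ⟨q0, hq0⟩
  refine ⟨p', ?_, hd, ?_⟩
  · intro k v
    rw [hp' k v]
    constructor
    · rintro ⟨i, hi⟩
      refine ⟨i + 1, ?_⟩
      unfold phi
      rw [pre_succ, hn]
      simp only [List.head?_cons, Option.bind_some, hab, List.tail_cons]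
      rw [Part.mem_bind_iff]
      exact ⟨ab, by simp, hi⟩
    · rintro ⟨i, hi⟩
      unfold phi at hi
      rw [Part.mem_bind_iff] at hi
      obtain ⟨ab', h1, h2⟩ := hi
      cases i with
      | zero => simp [pre] at h1
      | succ i =>
        rw [pre_succ, hn] at h1 h2
        simp only [List.head?_cons, Option.bind_some, hab, List.tail_cons] at h1 h2
        have : ab' = ab := by simpa using h1
        subst this
        exact ⟨i, h2⟩
  · intro q hq
    obtain ⟨r, hr, hr'⟩ := hs q hq
    refine ⟨r, ?_, n, hn, hr'⟩
    intro k v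
    rw [hr k v]
    constructor
    · rintro ⟨i, hi⟩
      refine ⟨i + 2, ?_⟩
      unfold psi
      rw [shift_pre]
      have e : (pre (pairing p q) (i + 2)).head? = some (tag n) := by
        rw [pre_succ]
        simp [pairing, hn]
      rw [e]
      simp only [Option.bind_some, hab]
      rw [Part.mem_bind_iff]
      exact ⟨ab, by simp, hi⟩
    · rintro ⟨i, hi⟩
      unfold psi at hi
      rw [Part.mem_bind_iff] at hi
      obtain ⟨ab', h1, h2⟩ := hi
      cases i with
      | zero => simp [pre] at h1
      | succ i =>
        have e : (pre (pairing p q) (i + 1)).head? = some (tag n) := by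
          rw [pre_succ]
          simp [pairing, hn]
        rw [e] at h1
        simp only [Option.bind_some, hab] at h1
        have : ab' = ab := by simpa using h1
        subst this
        rw [shift_pre] at h2
        exact ⟨_, h2⟩

/-- For problems: if `f n ≤_W h m` for all `n`, `m`, some problem lies in between. -/
theorem exists_between (f h : ℕ → Problem) (hfh : ∀ n m, WeihrauchLE (f n) (h m)) :
    ∃ g : Problem, ∀ n m, WeihrauchLE (f n) g ∧ WeihrauchLE g (h m) := by
  choose c hc using fun n m => exists_red (hfh n m)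
  -- the tag of `f n` is (a code of) the list of reductions `f n ≤ h 0, …, f n ≤ h n`
  let L : ℕ → List (Code × Code) := fun n => (List.range (n + 1)).map (c n)
  let tag : ℕ → ℕ := fun n => Encodable.encode (L n)
  have hL : ∀ n, (L n).length = n + 1 := fun n => by simp [L]
  have htag : Function.Injective tag := by
    intro a b hab
    have h1 : L a = L b := Encodable.encode_injective hab
    have h2 := congrArg List.length h1
    rw [hL, hL] at h2
    omega
  refine ⟨tagged tag f, fun n m => ⟨le_tagged tag htag f n, ?_⟩⟩
  -- the finitely many reductions `f k ≤ h m` with `k < m` are put into a table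
  refine tagged_le m tag f (h m) ((List.range m).map fun k => c k m) ?_
  intro k
  refine ⟨c k m, ?_, hc k m⟩
  unfold pick
  simp only [tag, Encodable.encodek, Option.bind_some]
  rcases lt_or_ge m (k + 1) with hk | hk
  · have e : (L k)[m]? = some (c k m) := by
      simp [L, hk]
    rw [e]; rfl
  · have e : (L k)[m]? = none := by
      rw [List.getElem?_eq_none_iff, hL]; exact hk
    have hk' : k < m := hk
    rw [e, hL]
    simp [hk']

/-- **Main result.** Let `(f n)` and `(h m)` be two sequences of Weihrauch degrees with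
`f n ≤ h m` for all `n` and `m` (for instance `f 0 < f 1 < f 2 < ⋯ < h 2 < h 1 < h 0`, a chain of
order type `ω + ω*`). Then there is a Weihrauch degree `g` with `f n ≤ g ≤ h m` for all `n`, `m`. -/
theorem result (f h : ℕ → WeihrauchDegree) (hfh : ∀ n m, f n ≤ h m) :
    ∃ g : WeihrauchDegree, ∀ n m, f n ≤ g ∧ g ≤ h m := by
  obtain ⟨g, hg⟩ := exists_between (fun n => ofAntisymmetrization (· ≤ ·) (f n))
    (fun m => ofAntisymmetrization (· ≤ ·) (h m)) (fun n m => by
      have := hfh n m
      rw [← ofAntisymmetrization_le_ofAntisymmetrization_iff] at this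
      exact this)
  refine ⟨toAntisymmetrization (· ≤ ·) g, fun n m => ⟨?_, ?_⟩⟩
  · rw [← toAntisymmetrization_ofAntisymmetrization (· ≤ ·) (f n),
      toAntisymmetrization_le_toAntisymmetrization_iff]
    exact (hg n m).1
  · rw [← toAntisymmetrization_ofAntisymmetrization (· ≤ ·) (h m),
      toAntisymmetrization_le_toAntisymmetrization_iff]
    exact (hg n m).2

end Pool.Agent.Results.MP_2d238a_lc.OmegaChainIntermediate
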